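import Mathlib

/-!
# Harmonic measure of boundary rays seen from semigroup orbits: definitions
-/

set_option autoImplicit false

open Filter Topology Set

namespace Pool.Agent.W5h52.HM

/-- The open unit disc. -/
abbrev D : Set ℂ := Metric.ball (0 : ℂ) 1

/-- A continuous semigroup of holomorphic self-maps of the unit disc: `φ t` is a holomorphic
self-map of the disc for `t ≥ 0`, `φ 0` is the identity, `φ (t + s) = φ t ∘ φ s`, and
`t ↦ φ t` is continuous on `[0, ∞)` for locally uniform convergence on the disc. -/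
structure IsSemigroup (φ : ℝ → ℂ → ℂ) : Prop where
  maps : ∀ t, 0 ≤ t → MapsTo (φ t) D D
  holo : ∀ t, 0 ≤ t → DifferentiableOn ℂ (φ t) D
  zero : ∀ z ∈ D, φ 0 z = z
  add : ∀ s t, 0 ≤ s → 0 ≤ t → ∀ z ∈ D, φ (t + s) z = φ t (φ s z)
  cont : ∀ t₀, 0 ≤ t₀ → TendstoLocallyUniformlyOn φ (φ t₀) (𝓝[Ici 0] t₀) D

/-- The Cayley map `z ↦ (1 + z) / (1 - z)` of the disc onto the right half-plane. -/
noncomputable def cayley (z : ℂ) : ℂ := (1 + z) / (1 - z)

/-- The orbit `z_t = C(φ_t(0))` of the base point, seen in the right half-plane. -/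
noncomputable def Z (φ : ℝ → ℂ → ℂ) (t : ℝ) : ℂ := cayley (φ t 0)

/-- Harmonic measure in the right half-plane: `harm E w` is the harmonic measure at `w` of the
subset `{i y : y ∈ E}` of the imaginary axis, that is the Poisson integral
`(1 / π) ∫_E x / (x² + (v - y)²) dy` with `w = x + i v`. -/
noncomputable def harm (E : Set ℝ) (w : ℂ) : ℝ :=
  1 / Real.pi * ∫ y in E, w.re / (w.re ^ 2 + (w.im - y) ^ 2)

/-- The two rays: `i y` lies in `Θ_t` if and only if `|y| ≥ ρ_t = |z_t|`. -/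
def Theta (φ : ℝ → ℂ → ℂ) (t : ℝ) : Set ℝ := {y : ℝ | ‖Z φ t‖ ≤ |y|}

/-- `m(t) = inf_{s ≥ t} h_t(z_s)`, where `h_t(w)` is the harmonic measure of `Θ_t` at `w`. -/
noncomputable def m (φ : ℝ → ℂ → ℂ) (t : ℝ) : ℝ := ⨅ s : Ici t, harm (Theta φ t) (Z φ s)

end Pool.Agent.W5h52.HM
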