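import Pool.Agent.W5h52.HM.SP

set_option autoImplicit false

open Complex Filter Topology Set Metric MeasureTheory

namespace Pool.Agent.W5h52.HM

lemma arg_bound {w : ℂ} (hw : 0 < w.re) :
    0 ≤ w.im * w.arg ∧ |w.im| ≤ w.re + 4 / Real.pi * (w.im * w.arg) := by
  have h1 : w.arg = Real.arctan (w.im / w.re) := by
    rw [← Complex.tan_arg, Real.arctan_tan]
    · have := (abs_lt.1 (Complex.abs_arg_lt_pi_div_two_iff.2 (Or.inl hw))).1
      linarith
    · exact (abs_lt.1 (Complex.abs_arg_lt_pi_div_two_iff.2 (Or.inl hw))).2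
  have hpi := Real.pi_pos
  have key : ∀ u v : ℝ, 0 < u → 0 ≤ v → 0 ≤ v * Real.arctan (v / u) ∧
      v ≤ u + 4 / Real.pi * (v * Real.arctan (v / u)) := by
    intro u v hu hv
    have h2 : 0 ≤ Real.arctan (v / u) := Real.arctan_nonneg.2 (by positivity)
    have h3 : 0 ≤ v * Real.arctan (v / u) := by positivity
    refine ⟨h3, ?_⟩
    rcases le_total v u with h | h
    · have : 0 ≤ 4 / Real.pi * (v * Real.arctan (v / u)) := by positivity
      linarith
    · have h4 : Real.pi / 4 ≤ Real.arctan (v / u) := by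
        rw [← Real.arctan_one]
        apply Real.arctan_le_arctan_iff.2
        rwa [one_le_div hu]
      have h5 : v * (Real.pi / 4) ≤ v * Real.arctan (v / u) := by gcongr
      have h6 : 4 / Real.pi * (v * (Real.pi / 4)) = v := by field_simp
      have h7 : 4 / Real.pi * (v * (Real.pi / 4)) ≤ 4 / Real.pi * (v * Real.arctan (v / u)) := by
        gcongr
      linarith
  rw [h1]
  rcases le_total 0 w.im with h | h
  · rw [abs_of_nonneg h]
    exact key _ _ hw h
  · have h2 := key w.re (-w.im) hw (by linarith)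
    rw [neg_div, Real.arctan_neg, neg_mul_neg] at h2
    rw [abs_of_nonpos h]
    exact h2

lemma log_le_sqrt {a : ℝ} (ha : 0 ≤ a) : Real.log (1 + a) ≤ Real.sqrt a := by
  rw [Real.log_le_iff_le_exp (by linarith)]
  have h := Real.quadratic_le_exp_of_nonneg (Real.sqrt_nonneg a)
  have h1 := Real.sq_sqrt ha
  have h2 := Real.sqrt_nonneg a
  have h3 := Real.exp_pos (Real.sqrt a)
  -- 1 + a ≤ exp √a
  have h4 : 1 + a ≤ Real.exp (Real.sqrt a) := by
    set t := Real.sqrt a
    rw [← h1]
    -- 1 + t² ≤ exp t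
    have h5 : 1 + t + t ^ 2 / 2 + t ^ 3 / 6 ≤ Real.exp t := by
      have := Real.sum_le_exp_of_nonneg h2 4
      simp [Finset.sum_range_succ, Nat.factorial] at this
      linarith
    nlinarith [mul_nonneg h2 (sq_nonneg (t - 3 / 2))]
  exact h4

lemma est {G : ℂ → ℂ} (hG : DifferentiableOn ℂ G HP) (hpos : ∀ w ∈ HP, G w ∈ HP)
    {Z : ℝ → ℂ} (hZm : ∀ t, 0 ≤ t → Z t ∈ HP)
    (hZc : ContinuousOn Z (Ici 0))
    (hZd : ∀ t, 0 ≤ t → HasDerivWithinAt Z (G (Z t)) (Ici t) t)
    {r s : ℝ} (hr : 0 ≤ r) (hrs : r ≤ s) (him : (Z r).im = (Z s).im) :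
    ∀ t ∈ Icc r s, |(Z t).im - (Z s).im| ≤ 8 * (Z s).re := by
  set y := (Z s).im with hy
  have hsub : Icc r s ⊆ Ici 0 := fun t ht => hr.trans ht.1
  have hZc' : ContinuousOn Z (Icc r s) := hZc.mono hsub
  have hGZ : ContinuousOn (fun t => G (Z t)) (Icc r s) :=
    hG.continuousOn.comp hZc' (fun t ht => hZm t (hsub ht))
  have hint : ∀ {a b : ℝ} {f : ℝ → ℂ}, a ∈ Icc r s → b ∈ Icc r s → ContinuousOn f (Icc r s) →
      IntervalIntegrable f volume a b := by
    intro a b f ha hb hf
    apply (hf.mono _).intervalIntegrable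
    exact (Set.ordConnected_Icc.uIcc_subset ha hb)
  have hintR : ∀ {a b : ℝ} {f : ℝ → ℝ}, a ∈ Icc r s → b ∈ Icc r s → ContinuousOn f (Icc r s) →
      IntervalIntegrable f volume a b := by
    intro a b f ha hb hf
    apply (hf.mono _).intervalIntegrable
    exact (Set.ordConnected_Icc.uIcc_subset ha hb)
  have hrr : r ∈ Icc r s := ⟨le_rfl, hrs⟩
  have hss : s ∈ Icc r s := ⟨hrs, le_rfl⟩
  -- derivatives
  have hZd' : ∀ t ∈ Ioo r s, HasDerivWithinAt Z (G (Z t)) (Ioi t) t := fun t ht =>
    (hZd t (hr.trans ht.1.le)).mono Ioi_subset_Ici_self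
  have hxd : ∀ t ∈ Icc r s, HasDerivWithinAt (fun t => (Z t).re) (G (Z t)).re (Ioi t) t := by
    intro t ht
    exact Complex.reCLM.hasFDerivAt.comp_hasDerivWithinAt t
      ((hZd t (hsub ht)).mono Ioi_subset_Ici_self)
  have hyd : ∀ t ∈ Icc r s, HasDerivWithinAt (fun t => (Z t).im) (G (Z t)).im (Ioi t) t := by
    intro t ht
    exact Complex.imCLM.hasFDerivAt.comp_hasDerivWithinAt t
      ((hZd t (hsub ht)).mono Ioi_subset_Ici_self)
  have hxc : ContinuousOn (fun t => (Z t).re) (Icc r s) := Complex.continuous_re.comp_continuousOn hZc'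
  have hyc : ContinuousOn (fun t => (Z t).im) (Icc r s) := Complex.continuous_im.comp_continuousOn hZc'
  have huc : ContinuousOn (fun t => (G (Z t)).re) (Icc r s) :=
    Complex.continuous_re.comp_continuousOn hGZ
  have hvc : ContinuousOn (fun t => (G (Z t)).im) (Icc r s) :=
    Complex.continuous_im.comp_continuousOn hGZ
  have hupos : ∀ t ∈ Icc r s, 0 < (G (Z t)).re := fun t ht => hpos _ (hZm t (hsub ht))
  have hxpos : ∀ t ∈ Icc r s, 0 < (Z t).re := fun t ht => hZm t (hsub ht)
  -- x is monotone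
  have hxint : ∀ a b, a ∈ Icc r s → b ∈ Icc r s → a ≤ b →
      ∫ t in a..b, (G (Z t)).re = (Z b).re - (Z a).re := by
    intro a b ha hb hab
    have hsub2 : Icc a b ⊆ Icc r s := Icc_subset_Icc ha.1 hb.2
    exact intervalIntegral.integral_eq_sub_of_hasDeriv_right_of_le hab (hxc.mono hsub2)
      (fun t ht => hxd t (hsub2 (Ioo_subset_Icc_self ht))) (hintR ha hb huc)
  have hyint : ∀ a b, a ∈ Icc r s → b ∈ Icc r s → a ≤ b →
      ∫ t in a..b, (G (Z t)).im = (Z b).im - (Z a).im := by
    intro a b ha hb hab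
    have hsub2 : Icc a b ⊆ Icc r s := Icc_subset_Icc ha.1 hb.2
    exact intervalIntegral.integral_eq_sub_of_hasDeriv_right_of_le hab (hyc.mono hsub2)
      (fun t ht => hyd t (hsub2 (Ioo_subset_Icc_self ht))) (hintR ha hb hvc)
  have hxmono : ∀ a b, a ∈ Icc r s → b ∈ Icc r s → a ≤ b → (Z a).re ≤ (Z b).re := by
    intro a b ha hb hab
    have h1 := hxint a b ha hb hab
    have h2 : 0 ≤ ∫ t in a..b, (G (Z t)).re := by
      apply intervalIntegral.integral_nonneg hab
      intro t ht
      exact (hupos t ⟨ha.1.trans ht.1, ht.2.trans hb.2⟩).le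
    linarith
  -- maximal deviation
  obtain ⟨t₀, ht₀, hmax⟩ := isCompact_Icc.exists_isMaxOn ⟨r, hrr⟩
    ((hyc.sub continuousOn_const).abs : ContinuousOn (fun t => |(Z t).im - y|) (Icc r s))
  set Δ := |(Z t₀).im - y| with hΔ
  have hmax' : ∀ t ∈ Icc r s, |(Z t).im - y| ≤ Δ := fun t ht => hmax ht
  have hΔ0 : 0 ≤ Δ := abs_nonneg _
  -- a ball containing everything
  set x₀ := (Z r).re with hx₀
  have hx₀pos : 0 < x₀ := hxpos r hrr
  set X := (Z s).re with hX
  have hXpos : 0 < X := hxpos s hss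
  set R : ℝ := (X ^ 2 + (|y| + Δ) ^ 2 + 1) / (2 * x₀) with hR
  have hRpos : 0 < R := by positivity
  have hball : ∀ w : ℂ, x₀ ≤ w.re → w.re ≤ X → |w.im| ≤ |y| + Δ → w ∈ ball (R : ℂ) R := by
    intro w h1 h2 h3
    rw [mem_ball, dist_eq_norm, ← abs_of_pos hRpos, ← abs_norm, ← sq_lt_sq,
      ← Complex.normSq_eq_norm_sq, Complex.normSq_apply]
    simp only [sub_re, ofReal_re, sub_im, ofReal_im, sub_zero, abs_of_pos hRpos]
    have h4 : w.im ^ 2 ≤ (|y| + Δ) ^ 2 := by
      rw [← sq_abs w.im]
      exact pow_le_pow_left₀ (abs_nonneg _) h3 2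
    have h5 : w.re ^ 2 ≤ X ^ 2 := pow_le_pow_left₀ (hx₀pos.le.trans h1) h2 2
    have h6 : 2 * x₀ * R = X ^ 2 + (|y| + Δ) ^ 2 + 1 := by
      rw [hR]; field_simp
    have h7 : 2 * x₀ * R ≤ 2 * w.re * R := by gcongr
    nlinarith
  have hballHP : ball (R : ℂ) R ⊆ HP := by
    intro w hw
    show 0 < w.re
    rw [mem_ball, dist_eq_norm] at hw
    have h1 := (Complex.abs_re_le_norm (w - R)).trans_lt hw
    rw [abs_lt] at h1
    simp at h1
    linarith [h1.1]
  have hLd : DifferentiableOn ℂ (fun w => Complex.log (G w)) (ball (R : ℂ) R) := by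
    apply (hG.mono hballHP).clog
    intro w hw
    exact Or.inl (hpos w (hballHP hw))
  obtain ⟨Φ, hΦ⟩ := hLd.isExactOn_ball
  -- the two paths
  have hmemZ : ∀ t ∈ Icc r s, Z t ∈ ball (R : ℂ) R := by
    intro t ht
    apply hball
    · exact hxmono r t hrr ht ht.1
    · exact hxmono t s ht hss ht.2
    · have := hmax' t ht
      have h2 := abs_sub_abs_le_abs_sub (Z t).im y
      linarith
  set W : ℝ → ℂ := fun t => ((Z t).re : ℂ) + y * I with hW
  have hWre : ∀ t, (W t).re = (Z t).re := fun t => by simp [hW]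
  have hWim : ∀ t, (W t).im = y := fun t => by simp [hW]
  have hmemW : ∀ t ∈ Icc r s, W t ∈ ball (R : ℂ) R := by
    intro t ht
    apply hball
    · rw [hWre]; exact hxmono r t hrr ht ht.1
    · rw [hWre]; exact hxmono t s ht hss ht.2
    · rw [hWim]; linarith
  have hWd : ∀ t ∈ Icc r s, HasDerivWithinAt W ((G (Z t)).re : ℂ) (Ioi t) t := by
    intro t ht
    exact ((hxd t ht).ofReal_comp).add_const _
  have hWc : ContinuousOn W (Icc r s) :=
    (Complex.continuous_ofReal.comp_continuousOn hxc).add continuousOn_const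
  have hΦc : ContinuousOn Φ (ball (R : ℂ) R) := fun w hw => (hΦ w hw).continuousAt.continuousWithinAt
  have hLc : ContinuousOn (fun w => Complex.log (G w)) (ball (R : ℂ) R) := hLd.continuousOn
  have hLZ : ContinuousOn (fun t => Complex.log (G (Z t))) (Icc r s) := hLc.comp hZc' hmemZ
  have hLW : ContinuousOn (fun t => Complex.log (G (W t))) (Icc r s) := hLc.comp hWc hmemW
  have hI1 : ∫ t in r..s, Complex.log (G (Z t)) * G (Z t) = Φ (Z s) - Φ (Z r) := by
    refine intervalIntegral.integral_eq_sub_of_hasDeriv_right_of_le (f := fun t => Φ (Z t)) hrs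
      (hΦc.comp hZc' hmemZ) (fun t ht => ?_) (hint hrr hss (hLZ.mul hGZ))
    have ht' := Ioo_subset_Icc_self ht
    exact (hΦ _ (hmemZ t ht')).comp_hasDerivWithinAt t (hZd' t ht)
  have hI2 : ∫ t in r..s, Complex.log (G (W t)) * ((G (Z t)).re : ℂ) = Φ (W s) - Φ (W r) := by
    refine intervalIntegral.integral_eq_sub_of_hasDeriv_right_of_le (f := fun t => Φ (W t)) hrs
      (hΦc.comp hWc hmemW) (fun t ht => ?_)
      (hint hrr hss (hLW.mul (Complex.continuous_ofReal.comp_continuousOn huc)))
    have ht' := Ioo_subset_Icc_self ht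
    exact (hΦ _ (hmemW t ht')).comp_hasDerivWithinAt t (hWd t ht')
  have hWs : W s = Z s := by
    apply Complex.ext
    · rw [hWre]
    · rw [hWim]
  have hWr : W r = Z r := by
    apply Complex.ext
    · rw [hWre]
    · rw [hWim, him]
  rw [hWs, hWr, ← hI1] at hI2
  -- real parts
  have hre := congrArg Complex.re hI2
  have hre1 : (∫ t in r..s, Complex.log (G (Z t)) * G (Z t)).re =
      ∫ t in r..s, (Complex.log (G (Z t)) * G (Z t)).re := by
    have := Complex.reCLM.intervalIntegral_comp_comm (hint hrr hss (hLZ.mul hGZ))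
    exact this.symm
  have hre2 : (∫ t in r..s, Complex.log (G (W t)) * ((G (Z t)).re : ℂ)).re =
      ∫ t in r..s, (Complex.log (G (W t)) * ((G (Z t)).re : ℂ)).re := by
    have := Complex.reCLM.intervalIntegral_comp_comm
      (hint hrr hss (hLW.mul (Complex.continuous_ofReal.comp_continuousOn huc)))
    exact this.symm
  rw [hre1, hre2] at hre
  -- the main inequality
  have hcvθ : ContinuousOn (fun t => (G (Z t)).im * (G (Z t)).arg) (Icc r s) := by
    apply hvc.mul
    have h1 : ContinuousOn (fun t => (Complex.log (G (Z t))).im) (Icc r s) :=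
      Complex.continuous_im.comp_continuousOn hLZ
    simpa [Complex.log_im] using h1
  have hcs : ContinuousOn (fun t => 2 * (G (Z t)).re * Real.sqrt (Δ / (Z t).re)) (Icc r s) := by
    apply (continuousOn_const.mul huc).mul
    apply Real.continuous_sqrt.comp_continuousOn
    exact continuousOn_const.div hxc (fun t ht => (hxpos t ht).ne')
  have hvθ : ∫ t in r..s, (G (Z t)).im * (G (Z t)).arg ≤
      ∫ t in r..s, 2 * (G (Z t)).re * Real.sqrt (Δ / (Z t).re) := by
    have e1 : ∫ t in r..s, (G (Z t)).im * (G (Z t)).arg =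
        ∫ t in r..s, ((G (Z t)).im * (G (Z t)).arg +
          ((Complex.log (G (Z t)) * G (Z t)).re -
            (Complex.log (G (W t)) * ((G (Z t)).re : ℂ)).re)) := by
      rw [intervalIntegral.integral_add (hintR hrr hss hcvθ), intervalIntegral.integral_sub, hre]
      · ring
      · exact hintR hrr hss (Complex.continuous_re.comp_continuousOn (hLZ.mul hGZ))
      · exact hintR hrr hss (Complex.continuous_re.comp_continuousOn
          (hLW.mul (Complex.continuous_ofReal.comp_continuousOn huc)))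
      · exact hintR hrr hss ((Complex.continuous_re.comp_continuousOn (hLZ.mul hGZ)).sub
          (Complex.continuous_re.comp_continuousOn
          (hLW.mul (Complex.continuous_ofReal.comp_continuousOn huc))))
    rw [e1]
    apply intervalIntegral.integral_mono_on hrs
    · exact hintR hrr hss (hcvθ.add ((Complex.continuous_re.comp_continuousOn (hLZ.mul hGZ)).sub
          (Complex.continuous_re.comp_continuousOn
          (hLW.mul (Complex.continuous_ofReal.comp_continuousOn huc)))))
    · exact hintR hrr hss hcs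
    intro t ht
    have hx := hxpos t ht
    have hu := hupos t ht
    have hGZ0 : G (Z t) ≠ 0 := by
      intro h0
      rw [h0] at hu
      simp at hu
    have hGW0 : 0 < (G (W t)).re := hpos _ (hballHP (hmemW t ht))
    have hGW1 : G (W t) ≠ 0 := by
      intro h0
      rw [h0] at hGW0
      simp at hGW0
    have e2 : (G (Z t)).im * (G (Z t)).arg + ((Complex.log (G (Z t)) * G (Z t)).re -
            (Complex.log (G (W t)) * ((G (Z t)).re : ℂ)).re) =
        (G (Z t)).re * (Real.log ‖G (Z t)‖ - Real.log ‖G (W t)‖) := by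
      simp only [mul_re, Complex.log_re, Complex.log_im, ofReal_re, ofReal_im]
      ring
    rw [e2]
    have h1 := ratio_bound hG hpos (x := (Z t).re) (y := (Z t).im) (y' := y) hx
    have e3 : (((Z t).re : ℂ) + ((Z t).im : ℂ) * I) = Z t := Complex.re_add_im _
    rw [e3] at h1
    have h2 : Real.log ‖G (Z t)‖ ≤ 2 * Real.log (1 + |(Z t).im - y| / (Z t).re) +
        Real.log ‖G (W t)‖ := by
      have p1 : 0 < ‖G (Z t)‖ := norm_pos_iff.2 hGZ0
      have p2 : 0 < ‖G (W t)‖ := norm_pos_iff.2 hGW1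
      have p3 : 0 < 1 + |(Z t).im - y| / (Z t).re := by positivity
      have := Real.log_le_log p1 h1
      rw [Real.log_mul (by positivity) p2.ne', Real.log_pow] at this
      exact_mod_cast this
    have h3 : Real.log (1 + |(Z t).im - y| / (Z t).re) ≤ Real.sqrt (Δ / (Z t).re) := by
      refine (log_le_sqrt (by positivity)).trans ?_
      apply Real.sqrt_le_sqrt
      gcongr
      exact hmax' t ht
    nlinarith
  have hsq : ∫ t in r..s, 2 * (G (Z t)).re * Real.sqrt (Δ / (Z t).re) =
      4 * Real.sqrt (Δ * X) - 4 * Real.sqrt (Δ * x₀) := by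
    rcases hΔ0.eq_or_lt with h0 | h0
    · rw [← h0]
      simp
    have hd : ∀ t ∈ Ioo r s, HasDerivWithinAt (fun t => 4 * Real.sqrt (Δ * (Z t).re))
        (2 * (G (Z t)).re * Real.sqrt (Δ / (Z t).re)) (Ioi t) t := by
      intro t ht
      have ht' := Ioo_subset_Icc_self ht
      have hx := hxpos t ht'
      have h1 : HasDerivWithinAt (fun t => Δ * (Z t).re) (Δ * (G (Z t)).re) (Ioi t) t :=
        (hxd t ht').const_mul Δ
      have h2 := (h1.sqrt (by positivity)).const_mul 4
      refine h2.congr_deriv ?_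
      have h3 : Real.sqrt (Δ / (Z t).re) = Δ / Real.sqrt (Δ * (Z t).re) := by
        rw [eq_div_iff (by positivity), ← Real.sqrt_mul (by positivity)]
        have : Δ / (Z t).re * (Δ * (Z t).re) = Δ ^ 2 := by field_simp
        rw [this, Real.sqrt_sq h0.le]
      rw [h3]
      field_simp
      ring
    have h2 := intervalIntegral.integral_eq_sub_of_hasDeriv_right_of_le
      (f := fun t => 4 * Real.sqrt (Δ * (Z t).re)) hrs
      (continuousOn_const.mul (Real.continuous_sqrt.comp_continuousOn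
        (continuousOn_const.mul hxc))) hd (hintR hrr hss hcs)
    exact h2
  have habs : ∫ t in r..s, |(G (Z t)).im| ≤ X + 4 / Real.pi * (4 * Real.sqrt (Δ * X)) := by
    have hc4 : ContinuousOn (fun t => 4 / Real.pi * ((G (Z t)).im * (G (Z t)).arg)) (Icc r s) :=
      continuousOn_const.mul hcvθ
    have h1 : ∫ t in r..s, |(G (Z t)).im| ≤
        ∫ t in r..s, ((G (Z t)).re + 4 / Real.pi * ((G (Z t)).im * (G (Z t)).arg)) := by
      apply intervalIntegral.integral_mono_on hrs
      · exact hintR hrr hss hvc.abs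
      · exact hintR hrr hss (huc.add hc4)
      · intro t ht
        exact (arg_bound (hupos t ht)).2
    rw [intervalIntegral.integral_add (hintR hrr hss huc)
      (hintR hrr hss hc4), intervalIntegral.integral_const_mul,
      hxint r s hrr hss hrs] at h1
    have h2 : 4 / Real.pi * ∫ t in r..s, (G (Z t)).im * (G (Z t)).arg ≤
        4 / Real.pi * (4 * Real.sqrt (Δ * X)) := by
      have := Real.pi_pos
      gcongr
      refine hvθ.trans ?_
      rw [hsq]
      have := Real.sqrt_nonneg (Δ * x₀)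
      linarith
    linarith
  have h2Δ : 2 * Δ ≤ ∫ t in r..s, |(G (Z t)).im| := by
    have h1 := hyint r t₀ hrr ht₀ ht₀.1
    have h2 := hyint t₀ s ht₀ hss ht₀.2
    have h3 : |(Z t₀).im - y| ≤ ∫ t in r..t₀, |(G (Z t)).im| := by
      rw [him] at h1
      rw [← h1]
      exact intervalIntegral.abs_integral_le_integral_abs ht₀.1
    have h4 : |(Z t₀).im - y| ≤ ∫ t in t₀..s, |(G (Z t)).im| := by
      rw [abs_sub_comm]
      rw [hy, ← h2]
      exact intervalIntegral.abs_integral_le_integral_abs ht₀.2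
    have h5 := intervalIntegral.integral_add_adjacent_intervals
      (hintR hrr ht₀ hvc.abs) (hintR ht₀ hss hvc.abs)
    rw [hΔ]
    linarith
  have hfin : 2 * Δ ≤ X + 4 / Real.pi * (4 * Real.sqrt (Δ * X)) := h2Δ.trans habs
  have hΔX : Δ ≤ 8 * X := by
    have hpi : 4 / Real.pi ≤ 4 / 3.14 := by
      apply div_le_div_of_nonneg_left (by norm_num) (by norm_num)
      exact Real.pi_gt_d2.le
    have hs0 := Real.sqrt_nonneg (Δ * X)
    have h1 : 2 * Δ ≤ X + 4 / 3.14 * (4 * Real.sqrt (Δ * X)) := by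
      refine hfin.trans ?_
      gcongr
    -- √(ΔX) ≤ (Δ c + X / c)/2 with c = 3/8
    have h2 : Real.sqrt (Δ * X) ≤ (3 / 8 * Δ + 8 / 3 * X) / 2 := by
      apply Real.sqrt_le_iff.2
      constructor
      · positivity
      · nlinarith [sq_nonneg (3 / 8 * Δ - 8 / 3 * X)]
    by_contra hcon
    push Not at hcon
    norm_num at h1
    nlinarith
  intro t ht
  exact (hmax' t ht).trans hΔX

end Pool.Agent.W5h52.HM
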