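import Pool.Agent.W5h52.HM.Half
import Pool.Agent.W5h52.HM.Est

set_option autoImplicit false

open Complex Filter Topology Set Metric MeasureTheory

namespace Pool.Agent.W5h52.HM

variable {φ : ℝ → ℂ → ℂ}

lemma Z_re_mono (h : IsSemigroup φ) (hlim : Tendsto (fun t => φ t 0) atTop (𝓝 1)) {t s : ℝ}
    (ht : 0 ≤ t) (hts : t ≤ s) : (Z φ t).re ≤ (Z φ s).re := by
  rcases hts.eq_or_lt with rfl | hlt
  · exact le_rfl
  have h1 := horo h hlim (sub_pos.2 hlt) (Z_mem h ht)
  rw [gh_Z h ht (sub_pos.2 hlt).le, sub_add_cancel] at h1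
  exact h1

lemma key (h : IsSemigroup φ) (hlim : Tendsto (fun t => φ t 0) atTop (𝓝 1)) {t s : ℝ}
    (ht : 0 ≤ t) (hts : t ≤ s) : |(Z φ t).im| ≤ |(Z φ s).im| + 8 * (Z φ s).re := by
  have hxs : 0 < (Z φ s).re := Z_mem h (ht.trans hts)
  have hcont := Z_cont h
  have hf0 : (Z φ 0).im = 0 := by rw [Z_zero h]; simp
  by_cases hpos : ∀ w ∈ HP, G φ w ∈ HP
  · -- non constant generator
    by_contra hcon
    push Not at hcon
    have hcf : ContinuousOn (fun t => (Z φ t).im) (Ici 0) :=
      Complex.continuous_im.comp_continuousOn hcont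
    have hest : ∀ r s', 0 ≤ r → r ≤ s' → (Z φ r).im = (Z φ s').im → ∀ t ∈ Icc r s',
        |(Z φ t).im - (Z φ s').im| ≤ 8 * (Z φ s').re := fun r s' hr hrs him =>
      est (G_holo h) hpos (fun t ht => Z_mem h ht) hcont (fun t ht => Z_deriv h ht) hr hrs him
    by_cases hsame : (Z φ s).im ∈ uIcc 0 (Z φ t).im
    · have h1 := intermediate_value_uIcc (a := 0) (b := t) (f := fun t => (Z φ t).im)
        (hcf.mono (by
          rw [uIcc_of_le ht]
          exact fun x hx => hx.1))
      rw [hf0] at h1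
      obtain ⟨r, hr, hr2⟩ := h1 hsame
      rw [uIcc_of_le ht] at hr
      have h2 := hest r s hr.1 (hr.2.trans hts) hr2 t ⟨hr.2, hts⟩
      have h3 := abs_sub_abs_le_abs_sub (Z φ t).im (Z φ s).im
      linarith
    · have h0 : (0 : ℝ) ∈ uIcc (Z φ t).im (Z φ s).im := by
        rw [mem_uIcc] at hsame ⊢
        push Not at hsame
        rcases le_total 0 (Z φ t).im with h1 | h1
        · rcases le_total 0 (Z φ s).im with h2 | h2
          · exfalso
            have h3 := hsame.1 h2
            rw [abs_of_nonneg h1, abs_of_nonneg h2] at hcon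
            linarith
          · exact Or.inr ⟨h2, h1⟩
        · rcases le_total 0 (Z φ s).im with h2 | h2
          · exact Or.inl ⟨h1, h2⟩
          · exfalso
            rw [abs_of_nonpos h1, abs_of_nonpos h2] at hcon
            have h3 := hsame.2 (by linarith)
            linarith
      have h1 := intermediate_value_uIcc (a := t) (b := s) (f := fun t => (Z φ t).im)
        (hcf.mono (by
          rw [uIcc_of_le hts]
          exact fun x hx => ht.trans hx.1))
      obtain ⟨s₀, hs₀, hs₀'⟩ := h1 h0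
      rw [uIcc_of_le hts] at hs₀
      simp only at hs₀'
      have h2 := hest 0 s₀ le_rfl (ht.trans hs₀.1) (by rw [hf0, hs₀']) t ⟨ht, hs₀.1⟩
      rw [hs₀', sub_zero] at h2
      have h3 := Z_re_mono h hlim (ht.trans hs₀.1) hs₀.2
      have h4 := abs_nonneg (Z φ s).im
      linarith
  · -- the generator is an imaginary constant
    push Not at hpos
    obtain ⟨w, hw, hw2⟩ := hpos
    have hre0 : (G φ w).re = 0 :=
      le_antisymm (not_lt.1 hw2) (G_re_nonneg h hlim hw)
    have hconv : Convex ℝ HP := convex_halfSpace_re_gt 0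
    have han : AnalyticOnNhd ℂ (G φ) HP := (G_holo h).analyticOnNhd isOpen_HP
    have hconst : ∃ c, ∀ z ∈ HP, G φ z = c := by
      rcases han.is_constant_or_isOpen hconv.isPreconnected with h1 | h1
      · exact h1
      · exfalso
        have h2 := h1 HP subset_rfl isOpen_HP
        obtain ⟨ε, hε, h3⟩ := Metric.isOpen_iff.1 h2 (G φ w) ⟨w, hw, rfl⟩
        have h4 : G φ w - (ε / 2 : ℝ) ∈ ball (G φ w) ε := by
          rw [mem_ball, dist_eq_norm]
          have : G φ w - (ε / 2 : ℝ) - G φ w = -((ε / 2 : ℝ) : ℂ) := by ring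
          rw [this, norm_neg, Complex.norm_real, Real.norm_eq_abs, abs_of_pos (by positivity)]
          linarith
        obtain ⟨w', hw', hw2'⟩ := h3 h4
        have h5 := G_re_nonneg h hlim hw'
        rw [hw2'] at h5
        simp [hre0] at h5
        linarith
    obtain ⟨c, hc⟩ := hconst
    have hlin : ∀ τ, 0 ≤ τ → Z φ τ = Z φ 0 + τ * c := by
      intro τ hτ
      have h1 := intervalIntegral.integral_eq_sub_of_hasDeriv_right_of_le (f := Z φ)
        (f' := fun _ => c) (a := 0) (b := τ) hτ (hcont.mono (fun x hx => hx.1))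
        (fun x hx => by
          have := (Z_deriv h hx.1.le).mono Ioi_subset_Ici_self
          rwa [hc _ (Z_mem h hx.1.le)] at this) intervalIntegrable_const
      rw [intervalIntegral.integral_const, sub_zero, Complex.real_smul] at h1
      rw [h1]
      ring
    have him : ∀ τ, 0 ≤ τ → (Z φ τ).im = τ * c.im := by
      intro τ hτ
      rw [hlin τ hτ]
      simp [hf0]
    rw [him t ht, him s (ht.trans hts), abs_mul, abs_mul, abs_of_nonneg ht,
      abs_of_nonneg (ht.trans hts)]
    have : t * |c.im| ≤ s * |c.im| := by gcongr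
    linarith

lemma poisson_integrable {x : ℝ} (hx : 0 < x) (v : ℝ) :
    Integrable (fun y : ℝ => x / (x ^ 2 + (v - y) ^ 2)) := by
  have h1 : Integrable (fun y : ℝ => (1 + ((y - v) / x) ^ 2)⁻¹) :=
    (integrable_inv_one_add_sq.comp_div hx.ne').comp_sub_right v
  refine (h1.const_mul x⁻¹).congr (Eventually.of_forall fun y => ?_)
  have h2 : x ^ 2 + (v - y) ^ 2 ≠ 0 := by positivity
  have h3 : 1 + ((y - v) / x) ^ 2 ≠ 0 := by positivity
  simp only
  field_simp
  ring

lemma poisson_total {x : ℝ} (hx : 0 < x) (v : ℝ) :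
    ∫ y : ℝ, x / (x ^ 2 + (v - y) ^ 2) = Real.pi := by
  have h1 : (fun y : ℝ => x / (x ^ 2 + (v - y) ^ 2)) =
      fun y => x⁻¹ * (fun y : ℝ => (1 + (y / x) ^ 2)⁻¹) (y - v) := by
    funext y
    have h2 : x ^ 2 + (v - y) ^ 2 ≠ 0 := by positivity
    have h3 : 1 + ((y - v) / x) ^ 2 ≠ 0 := by positivity
    simp only
    field_simp
    ring
  rw [h1, integral_const_mul, integral_sub_right_eq_self (fun y : ℝ => (1 + (y / x) ^ 2)⁻¹) v,
    Measure.integral_comp_div (fun y : ℝ => (1 + y ^ 2)⁻¹) x, integral_univ_inv_one_add_sq,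
    abs_of_pos hx, smul_eq_mul]
  field_simp

lemma harm_le_one {w : ℂ} (hw : w ∈ HP) (E : Set ℝ) : harm E w ≤ 1 := by
  have hx : 0 < w.re := hw
  unfold harm
  have h1 : ∫ y in E, w.re / (w.re ^ 2 + (w.im - y) ^ 2) ≤ Real.pi := by
    rw [← poisson_total hx w.im]
    apply setIntegral_le_integral (poisson_integrable hx w.im)
    exact Eventually.of_forall fun y => by
      simp only [Pi.zero_apply]
      positivity
  have hpi := Real.pi_pos
  rw [one_div, inv_mul_le_iff₀ hpi, mul_one]
  exact h1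

lemma harm_nonneg {w : ℂ} (hw : w ∈ HP) (E : Set ℝ) : 0 ≤ harm E w := by
  have hx : 0 < w.re := hw
  unfold harm
  have hpi := Real.pi_pos
  apply mul_nonneg (by positivity)
  apply integral_nonneg
  intro y
  simp only [Pi.zero_apply]
  positivity

lemma arctan_low : Real.pi / 30 ≤ Real.pi / 2 - Real.arctan 9 := by
  have h1 : Real.arctan (9 : ℝ)⁻¹ = Real.pi / 2 - Real.arctan 9 :=
    Real.arctan_inv_of_pos (by norm_num)
  rw [← h1]
  have h2 : 0 ≤ Real.arctan (9 : ℝ)⁻¹ := Real.arctan_nonneg.2 (by norm_num)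
  have h3 := Real.sin_le h2
  rw [Real.sin_arctan] at h3
  refine le_trans ?_ h3
  have h4 : Real.sqrt (1 + (9 : ℝ)⁻¹ ^ 2) ≤ 1.01 := by
    rw [Real.sqrt_le_left (by norm_num)]
    norm_num
  have h5 : (9 : ℝ)⁻¹ / 1.01 ≤ (9 : ℝ)⁻¹ / Real.sqrt (1 + (9 : ℝ)⁻¹ ^ 2) := by
    apply div_le_div_of_nonneg_left (by norm_num) (by positivity) h4
  refine le_trans ?_ h5
  have := Real.pi_lt_d2
  norm_num
  linarith

lemma harm_low {w : ℂ} (hw : w ∈ HP) {ρ : ℝ} (hρ : ρ ≤ |w.im| + 9 * w.re) :
    1 / 30 ≤ harm {y : ℝ | ρ ≤ |y|} w := by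
  have hx : 0 < w.re := hw
  set x := w.re with hxd
  set v := w.im with hvd
  have hpi := Real.pi_pos
  have hint := poisson_integrable hx v
  have hder : ∀ y, HasDerivAt (fun y : ℝ => Real.arctan ((y - v) / x))
      (x / (x ^ 2 + (v - y) ^ 2)) y := by
    intro y
    have h1 : HasDerivAt (fun y : ℝ => (y - v) / x) (1 / x) y :=
      ((hasDerivAt_id y).sub_const v).div_const x
    refine h1.arctan.congr_deriv ?_
    have h2 : x ^ 2 + (v - y) ^ 2 ≠ 0 := by positivity
    have h3 : 1 + ((y - v) / x) ^ 2 ≠ 0 := by positivity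
    field_simp
    ring
  have hnn : ∀ y, 0 ≤ x / (x ^ 2 + (v - y) ^ 2) := fun y => by positivity
  have hmeas : MeasurableSet {y : ℝ | ρ ≤ |y|} :=
    measurableSet_le measurable_const (measurable_id.abs)
  have key2 : Real.pi / 2 - Real.arctan 9 ≤ ∫ y in {y : ℝ | ρ ≤ |y|}, x / (x ^ 2 + (v - y) ^ 2) := by
    rcases le_total 0 v with hv | hv
    · have h1 : ∫ y in Ioi (v + 9 * x), x / (x ^ 2 + (v - y) ^ 2) =
          Real.pi / 2 - Real.arctan ((v + 9 * x - v) / x) := by
        apply integral_Ioi_of_hasDerivAt_of_nonneg (g := fun y => Real.arctan ((y - v) / x))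
          (hder _).continuousAt.continuousWithinAt (fun y _ => hder y) (fun y _ => hnn y)
        apply (Real.tendsto_arctan_atTop.mono_right nhdsWithin_le_nhds).comp
        apply Tendsto.atTop_div_const hx
        exact tendsto_atTop_add_const_right _ _ tendsto_id
      have h2 : (v + 9 * x - v) / x = 9 := by field_simp; ring
      rw [h2] at h1
      rw [← h1]
      apply setIntegral_mono_set hint.integrableOn
      · exact Eventually.of_forall fun y => hnn y
      · apply LE.le.eventuallyLE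
        intro y hy
        have hy' : v + 9 * x < y := hy
        show ρ ≤ |y|
        rw [abs_of_nonneg hv] at hρ
        have : y ≤ |y| := le_abs_self y
        linarith
    · have h1 : ∫ y in Iic (v - 9 * x), x / (x ^ 2 + (v - y) ^ 2) =
          Real.arctan ((v - 9 * x - v) / x) - (-(Real.pi / 2)) := by
        apply integral_Iic_of_hasDerivAt_of_tendsto' (f := fun y => Real.arctan ((y - v) / x))
          (fun y _ => hder y) hint.integrableOn
        apply (Real.tendsto_arctan_atBot.mono_right nhdsWithin_le_nhds).comp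
        apply Tendsto.atBot_div_const hx
        exact tendsto_atBot_add_const_right _ _ tendsto_id
      have h2 : (v - 9 * x - v) / x = -9 := by field_simp; ring
      rw [h2, Real.arctan_neg] at h1
      have h3 : Real.pi / 2 - Real.arctan 9 = -Real.arctan 9 - (-(Real.pi / 2)) := by ring
      rw [h3, ← h1]
      apply setIntegral_mono_set hint.integrableOn
      · exact Eventually.of_forall fun y => hnn y
      · apply LE.le.eventuallyLE
        intro y hy
        have hy' : y ≤ v - 9 * x := hy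
        show ρ ≤ |y|
        rw [abs_of_nonpos hv] at hρ
        have : -y ≤ |y| := neg_le_abs y
        linarith
  unfold harm
  rw [← hxd, ← hvd]
  have h4 := arctan_low.trans key2
  calc (1 : ℝ) / 30 = 1 / Real.pi * (Real.pi / 30) := by field_simp
    _ ≤ _ := by gcongr

theorem main (h : IsSemigroup φ) (hlim : Tendsto (fun t => φ t 0) atTop (𝓝 1)) {t s : ℝ}
    (ht : 0 ≤ t) (hts : t ≤ s) : 1 / 30 ≤ harm (Theta φ t) (Z φ s) := by
  apply harm_low (Z_mem h (ht.trans hts))
  have h1 := key h hlim ht hts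
  have h2 := Z_re_mono h hlim ht hts
  have h3 := Complex.norm_le_abs_re_add_abs_im (Z φ t)
  have h4 : 0 < (Z φ t).re := Z_mem h ht
  rw [abs_of_pos h4] at h3
  linarith

theorem main2 (h : IsSemigroup φ) (hlim : Tendsto (fun t => φ t 0) atTop (𝓝 1)) {t : ℝ}
    (ht : 0 ≤ t) : 1 / 30 ≤ m φ t ∧ m φ t ≤ 1 := by
  unfold m
  constructor
  · have : Nonempty (Ici t) := ⟨⟨t, self_mem_Ici⟩⟩
    exact le_ciInf fun s => main h hlim ht s.2
  · refine (ciInf_le ?_ (⟨t, self_mem_Ici⟩ : Ici t)).trans (harm_le_one (Z_mem h ht) _)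
    refine ⟨0, ?_⟩
    rintro _ ⟨s, rfl⟩
    exact harm_nonneg (Z_mem h (ht.trans s.2)) _

theorem main3 (h : IsSemigroup φ) (hlim : Tendsto (fun t => φ t 0) atTop (𝓝 1)) :
    1 / 30 ≤ liminf (m φ) atTop := by
  apply le_liminf_of_le
  · apply IsCoboundedUnder.of_frequently_le (a := 1)
    apply Eventually.frequently
    filter_upwards [eventually_ge_atTop 0] with t ht
    exact (main2 h hlim ht).2
  · filter_upwards [eventually_ge_atTop 0] with t ht
    exact (main2 h hlim ht).1

end Pool.Agent.W5h52.HM
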