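import Pool.Agent.W5h52.HM.SP
import Pool.Agent.W5h52.HM.Defs

set_option autoImplicit false

open Complex Filter Topology Set Metric MeasureTheory intervalIntegral
open scoped Interval

namespace Pool.Agent.W5h52.HM

variable {φ : ℝ → ℂ → ℂ}

lemma path_cont (h : IsSemigroup φ) {z : ℂ} (hz : z ∈ D) :
    ContinuousOn (fun t => φ t z) (Ici 0) := by
  intro t₀ ht₀
  exact (h.cont t₀ ht₀).tendsto_at hz

lemma deriv_cont (h : IsSemigroup φ) {z : ℂ} (hz : z ∈ D) :
    ContinuousOn (fun t => deriv (φ t) z) (Ici 0) := by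
  intro t₀ ht₀
  have h1 := (h.cont t₀ ht₀).deriv
    (eventually_mem_nhdsWithin.mono fun t ht => h.holo t ht) Metric.isOpen_ball
  exact h1.tendsto_at hz

/-- `F_δ(z) = ∫_0^δ φ_s(z) ds` -/
noncomputable def F (φ : ℝ → ℂ → ℂ) (δ : ℝ) (z : ℂ) : ℂ := ∫ s in (0 : ℝ)..δ, φ s z

lemma intInt (h : IsSemigroup φ) {z : ℂ} (hz : z ∈ D) {a b : ℝ} (ha : 0 ≤ a) (hb : 0 ≤ b) :
    IntervalIntegrable (fun s => φ s z) volume a b :=
  ((path_cont h hz).mono (by
    intro x hx
    rcases Set.mem_uIcc.1 hx with h1 | h1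
    · exact ha.trans h1.1
    · exact hb.trans h1.1)).intervalIntegrable

lemma F_hasDeriv (h : IsSemigroup φ) {z : ℂ} (hz : z ∈ D) {δ : ℝ} (hδ : 0 < δ) :
    HasDerivAt (F φ δ) (∫ s in (0 : ℝ)..δ, deriv (φ s) z) z := by
  have hz' : ‖z‖ < 1 := by simpa using hz
  set r : ℝ := (1 - ‖z‖) / 2 with hr
  have hr0 : 0 < r := by rw [hr]; linarith
  have hball : ∀ x ∈ ball z r, ball x r ⊆ D := by
    intro x hx y hy
    rw [mem_ball_zero_iff]
    rw [mem_ball, dist_eq_norm] at hx hy
    have h1 : ‖y‖ ≤ ‖y - x‖ + ‖x - z‖ + ‖z‖ := by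
      calc ‖y‖ = ‖(y - x) + (x - z) + z‖ := by ring_nf
        _ ≤ ‖(y - x) + (x - z)‖ + ‖z‖ := norm_add_le _ _
        _ ≤ _ := by gcongr; exact norm_add_le _ _
    rw [hr] at hx hy
    linarith
  have hxD : ∀ x ∈ ball z r, x ∈ D := fun x hx => hball x hx (mem_ball_self hr0)
  have hsub : ∀ t ∈ Ι (0 : ℝ) δ, 0 ≤ t := by
    intro t ht
    rw [uIoc_of_le hδ.le] at ht
    exact ht.1.le
  have hres : ∀ x ∈ D, AEStronglyMeasurable (fun s => φ s x) (volume.restrict (Ι (0 : ℝ) δ)) := by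
    intro x hx
    exact ((path_cont h hx).mono hsub).aestronglyMeasurable measurableSet_uIoc
  refine (intervalIntegral.hasDerivAt_integral_of_dominated_loc_of_deriv_le (μ := volume)
    (F := fun x s => φ s x) (F' := fun x s => deriv (φ s) x) (x₀ := z) (s := ball z r)
    (bound := fun _ => 2 / r) (ball_mem_nhds z hr0) ?_ ?_ ?_ ?_ ?_ ?_).2
  · filter_upwards [ball_mem_nhds z hr0] with x hx
    exact hres x (hxD x hx)
  · exact intInt h hz le_rfl hδ.le
  · exact ((deriv_cont h hz).mono hsub).aestronglyMeasurable measurableSet_uIoc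
  · refine Eventually.of_forall fun t ht x hx => ?_
    apply Complex.norm_deriv_le_div_of_mapsTo_ball ((h.holo t (hsub t ht)).mono (hball x hx)) _ hr0
    intro y hy
    have h1 := h.maps t (hsub t ht) (hball x hx hy)
    have h2 := h.maps t (hsub t ht) (hxD x hx)
    rw [mem_ball_zero_iff] at h1 h2
    rw [mem_closedBall, dist_eq_norm]
    calc ‖φ t y - φ t x‖ ≤ ‖φ t y‖ + ‖φ t x‖ := norm_sub_le _ _
      _ ≤ 2 := by linarith
  · exact intervalIntegrable_const
  · refine Eventually.of_forall fun t ht x hx => ?_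
    exact ((h.holo t (hsub t ht)).differentiableAt (isOpen_ball.mem_nhds (hxD x hx))).hasDerivAt

lemma exists_delta (h : IsSemigroup φ) {z : ℂ} (hz : z ∈ D) :
    ∃ δ : ℝ, 0 < δ ∧ (∫ s in (0 : ℝ)..δ, deriv (φ s) z) ≠ 0 := by
  have h0 : deriv (φ 0) z = 1 := by
    have : φ 0 =ᶠ[𝓝 z] id := by
      filter_upwards [isOpen_ball.mem_nhds hz] with y hy using h.zero y hy
    rw [this.deriv_eq, deriv_id]
  have hc := deriv_cont h hz 0 (by simp)
  rw [ContinuousWithinAt, h0, Metric.tendsto_nhds] at hc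
  have h1 := hc (1 / 2) (by norm_num)
  rw [eventually_nhdsWithin_iff, Metric.eventually_nhds_iff] at h1
  obtain ⟨ε, hε, h2⟩ := h1
  refine ⟨ε / 2, by positivity, ?_⟩
  intro hzero
  have hint : IntervalIntegrable (fun s => deriv (φ s) z) volume 0 (ε / 2) := by
    apply ContinuousOn.intervalIntegrable
    apply (deriv_cont h hz).mono
    intro x hx
    rw [uIcc_of_le (by positivity)] at hx
    exact hx.1
  have h3 : (∫ s in (0 : ℝ)..(ε / 2), (deriv (φ s) z - 1)) = -((ε / 2 : ℝ) : ℂ) := by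
    rw [intervalIntegral.integral_sub hint intervalIntegrable_const, hzero]
    simp
  have h4 : ‖∫ s in (0 : ℝ)..(ε / 2), (deriv (φ s) z - 1)‖ ≤ 1 / 2 * |ε / 2 - 0| := by
    apply intervalIntegral.norm_integral_le_of_norm_le_const
    intro s hs
    rw [uIoc_of_le (by positivity)] at hs
    have := h2 (y := s) (by
      rw [Real.dist_eq, sub_zero, abs_of_pos hs.1]
      linarith [hs.2]) hs.1.le
    rw [dist_eq_norm] at this
    exact this.le
  rw [h3, norm_neg, Complex.norm_real, Real.norm_eq_abs, sub_zero, abs_of_pos (by positivity)] at h4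
  linarith

/-- the infinitesimal generator -/
noncomputable def gen (φ : ℝ → ℂ → ℂ) (z : ℂ) : ℂ := derivWithin (fun t => φ t z) (Ici 0) 0

lemma hasDeriv_zero' (h : IsSemigroup φ) {z : ℂ} (hz : z ∈ D) {δ : ℝ} (hδ : 0 < δ)
    (hne : (∫ s in (0 : ℝ)..δ, deriv (φ s) z) ≠ 0) :
    HasDerivWithinAt (fun t => φ t z) ((φ δ z - z) / (∫ s in (0 : ℝ)..δ, deriv (φ s) z))
      (Ici 0) 0 := by
  set E := F φ δ with hE
  set E' := (∫ s in (0 : ℝ)..δ, deriv (φ s) z) with hE'
  have hEd : HasDerivAt E E' z := F_hasDeriv h hz hδ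
  set u : ℝ → ℂ := fun s => φ (max s 0) z with hu
  have huc : Continuous u := by
    have := (path_cont h hz).comp_continuous (f := fun s : ℝ => max s 0) (by fun_prop)
      (fun x => Set.mem_Ici.2 (le_max_right _ _))
    exact this
  have hu0 : ∀ s, 0 ≤ s → u s = φ s z := fun s hs => by rw [hu]; simp only [max_eq_left hs]
  set Ψ : ℝ → ℂ := fun t => ∫ s in t..(t + δ), u s with hΨ
  have hΨd : HasDerivAt Ψ (u δ - u 0) 0 := by
    have h1 : Ψ = fun t => (∫ s in (0 : ℝ)..(t + δ), u s) - ∫ s in (0 : ℝ)..t, u s := by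
      funext t
      rw [hΨ]
      simp only
      rw [intervalIntegral.integral_interval_sub_left (huc.intervalIntegrable _ _)
        (huc.intervalIntegrable _ _)]
    rw [h1]
    apply HasDerivAt.sub
    · have h2 : HasDerivAt (fun x => ∫ s in (0 : ℝ)..x, u s) (u (0 + δ)) (0 + δ) :=
        intervalIntegral.integral_hasDerivAt_right (huc.intervalIntegrable _ _)
          (huc.stronglyMeasurableAtFilter _ _) huc.continuousAt
      have h3 := h2.comp_add_const (0 : ℝ) δ
      rw [zero_add] at h3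
      exact h3
    · exact intervalIntegral.integral_hasDerivAt_right (huc.intervalIntegrable _ _)
          (huc.stronglyMeasurableAtFilter _ _) huc.continuousAt
  have hEΨ : ∀ t, 0 ≤ t → E (φ t z) = Ψ t := by
    intro t ht
    rw [hE, hΨ]
    unfold F
    simp only
    have h1 : ∫ s in (0 : ℝ)..δ, φ s (φ t z) = ∫ s in (0 : ℝ)..δ, u (s + t) := by
      apply intervalIntegral.integral_congr
      intro s hs
      rw [uIcc_of_le hδ.le] at hs
      simp only
      rw [hu0 _ (add_nonneg hs.1 ht), h.add t s ht hs.1 z hz]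
    rw [h1, intervalIntegral.integral_comp_add_right (fun s => u s), zero_add, add_comm δ t]
  have hcont : Tendsto (fun t => φ t z) (𝓝[Ici 0 \ {0}] 0) (𝓝 z) := by
    have := path_cont h hz 0 (by simp)
    rw [ContinuousWithinAt, h.zero z hz] at this
    exact this.mono_left (nhdsWithin_mono _ sdiff_subset)
  have hds : Tendsto (fun t => dslope E z (φ t z)) (𝓝[Ici 0 \ {0}] 0) (𝓝 E') := by
    have h1 : ContinuousAt (dslope E z) z := continuousAt_dslope_same.2 hEd.differentiableAt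
    have h2 : dslope E z z = E' := by rw [dslope_same, hEd.deriv]
    rw [ContinuousAt, h2] at h1
    exact h1.comp hcont
  rw [hasDerivWithinAt_iff_tendsto_slope]
  have hsl : Tendsto (slope Ψ 0) (𝓝[Ici 0 \ {0}] 0) (𝓝 (u δ - u 0)) := by
    have := hasDerivAt_iff_tendsto_slope.1 hΨd
    exact this.mono_left (nhdsWithin_mono _ (by
      intro x hx
      exact hx.2))
  have hdiv := hsl.div hds hne
  rw [hu0 δ hδ.le, hu0 0 le_rfl, h.zero z hz] at hdiv
  refine hdiv.congr' ?_
  have hev : ∀ᶠ t in 𝓝[Ici 0 \ {0}] (0 : ℝ), dslope E z (φ t z) ≠ 0 := hds.eventually_ne hne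
  filter_upwards [hev, eventually_mem_nhdsWithin] with t ht1 ht2
  have ht0 : (0 : ℝ) ≤ t := ht2.1
  have ht3 : t ≠ 0 := by simpa using ht2.2
  have h1 : Ψ t - Ψ 0 = (φ t z - z) * dslope E z (φ t z) := by
    rw [← hEΨ t ht0, ← hEΨ 0 le_rfl, h.zero z hz]
    have := sub_smul_dslope E z (φ t z)
    rw [smul_eq_mul] at this
    exact this.symm
  show slope Ψ 0 t / dslope E z (φ t z) = slope (fun t => φ t z) 0 t
  rw [slope_def_module, slope_def_module, h1, h.zero z hz]
  simp only [sub_zero, real_smul]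
  field_simp

lemma hasDeriv_zero (h : IsSemigroup φ) {z : ℂ} (hz : z ∈ D) :
    HasDerivWithinAt (fun t => φ t z) (gen φ z) (Ici 0) 0 := by
  obtain ⟨δ, hδ, hne⟩ := exists_delta h hz
  exact (hasDeriv_zero' h hz hδ hne).differentiableWithinAt.hasDerivWithinAt

lemma gen_eq (h : IsSemigroup φ) {z : ℂ} (hz : z ∈ D) {δ : ℝ} (hδ : 0 < δ)
    (hne : (∫ s in (0 : ℝ)..δ, deriv (φ s) z) ≠ 0) :
    gen φ z = (φ δ z - z) / (∫ s in (0 : ℝ)..δ, deriv (φ s) z) :=
  (hasDeriv_zero' h hz hδ hne).derivWithin (uniqueDiffWithinAt_Ici 0)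

lemma gen_holo (h : IsSemigroup φ) : DifferentiableOn ℂ (gen φ) D := by
  intro z hz
  obtain ⟨δ, hδ, hne⟩ := exists_delta h hz
  have hFd : DifferentiableOn ℂ (F φ δ) D := fun w hw =>
    (F_hasDeriv h hw hδ).differentiableAt.differentiableWithinAt
  have hdd : DifferentiableAt ℂ (deriv (F φ δ)) z :=
    (hFd.deriv isOpen_ball).differentiableAt (isOpen_ball.mem_nhds hz)
  have hEz : deriv (F φ δ) z ≠ 0 := by rw [(F_hasDeriv h hz hδ).deriv]; exact hne
  have hev : gen φ =ᶠ[𝓝 z] fun w => (φ δ w - w) / deriv (F φ δ) w := by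
    filter_upwards [isOpen_ball.mem_nhds hz, hdd.continuousAt.eventually_ne hEz] with w hw hw2
    have h3 := (F_hasDeriv h hw hδ).deriv
    rw [h3] at hw2 ⊢
    exact gen_eq h hw hδ hw2
  have hφd : DifferentiableAt ℂ (φ δ) z := (h.holo δ hδ.le).differentiableAt
    (isOpen_ball.mem_nhds hz)
  exact (((hφd.sub differentiableAt_id).div hdd hEz).congr_of_eventuallyEq
    hev).differentiableWithinAt

lemma hasDeriv_path (h : IsSemigroup φ) {z : ℂ} (hz : z ∈ D) {t : ℝ} (ht : 0 ≤ t) :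
    HasDerivWithinAt (fun s => φ s z) (gen φ (φ t z)) (Ici t) t := by
  have h1 := hasDeriv_zero h (h.maps t ht hz)
  have h2 : HasDerivWithinAt (fun s => φ (s - t) (φ t z)) (gen φ (φ t z)) (Ici t) t := by
    have h3 : HasDerivWithinAt (fun s : ℝ => s - t) 1 (Ici t) t :=
      ((hasDerivAt_id t).sub_const t).hasDerivWithinAt
    have h4 : HasDerivWithinAt (fun τ => φ τ (φ t z)) (gen φ (φ t z)) (Ici 0)
        ((fun s : ℝ => s - t) t) := by simpa using h1
    have h5 := HasDerivWithinAt.scomp (h := fun s : ℝ => s - t) t h4 h3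
      (fun s hs => Set.mem_Ici.2 (sub_nonneg.2 (Set.mem_Ici.1 hs)))
    simpa [Function.comp_def] using h5
  refine h2.congr ?_ ?_
  · intro s hs
    have hs' : 0 ≤ s - t := by simpa using hs
    have := h.add t (s - t) ht hs' z hz
    rw [sub_add_cancel] at this
    exact this
  · simp [h.zero _ (h.maps t ht hz)]

end Pool.Agent.W5h52.HM
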