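import Pool.Agent.W5h52.HM.Gen

set_option autoImplicit false

open Complex Filter Topology Set Metric MeasureTheory

namespace Pool.Agent.W5h52.HM

/-- the inverse of the Cayley map -/
noncomputable def cinv (w : ℂ) : ℂ := (w - 1) / (w + 1)

lemma one_sub_ne {z : ℂ} (hz : z ∈ D) : 1 - z ≠ 0 := by
  intro h
  have : z = 1 := by linear_combination -h
  subst this
  simp at hz

lemma cayley_re {z : ℂ} : (cayley z).re = (1 - ‖z‖ ^ 2) / Complex.normSq (1 - z) := by
  unfold cayley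
  rw [Complex.div_re, ← add_div, ← Complex.normSq_eq_norm_sq, Complex.normSq_apply z]
  congr 1
  simp
  ring

lemma cayley_mem {z : ℂ} (hz : z ∈ D) : cayley z ∈ HP := by
  show 0 < (cayley z).re
  rw [cayley_re]
  have hz' : ‖z‖ < 1 := by simpa using hz
  apply div_pos
  · nlinarith [norm_nonneg z]
  · exact Complex.normSq_pos.2 (one_sub_ne hz)

lemma add_one_ne {w : ℂ} (hw : w ∈ HP) : w + 1 ≠ 0 := by
  intro h
  have := congrArg Complex.re h
  have hw' : 0 < w.re := hw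
  simp at this
  linarith

lemma cinv_mem {w : ℂ} (hw : w ∈ HP) : cinv w ∈ D := by
  rw [mem_ball_zero_iff]
  unfold cinv
  rw [norm_div, div_lt_one (norm_pos_iff.2 (add_one_ne hw))]
  have h1 := norm_sub_lt (A := w) (B := 1) hw (by simp)
  simpa using h1

lemma cinv_cayley {z : ℂ} (hz : z ∈ D) : cinv (cayley z) = z := by
  unfold cinv cayley
  have h1 := one_sub_ne hz
  have h2 : (1 + z) / (1 - z) + 1 ≠ 0 := by
    have : (1 + z) / (1 - z) + 1 = 2 / (1 - z) := by field_simp; ring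
    rw [this]
    exact div_ne_zero two_ne_zero h1
  rw [div_eq_iff h2]
  field_simp
  ring

lemma cayley_cinv {w : ℂ} (hw : w ∈ HP) : cayley (cinv w) = w := by
  unfold cinv cayley
  have h1 := add_one_ne hw
  have h2 : 1 - (w - 1) / (w + 1) ≠ 0 := by
    have : 1 - (w - 1) / (w + 1) = 2 / (w + 1) := by field_simp; ring
    rw [this]
    exact div_ne_zero two_ne_zero h1
  rw [div_eq_iff h2]
  field_simp
  ring

lemma cayley_deriv {z : ℂ} (hz : z ∈ D) : HasDerivAt cayley (2 / (1 - z) ^ 2) z := by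
  have h1 := one_sub_ne hz
  have h2 : HasDerivAt (fun z : ℂ => 1 + z) 1 z := (hasDerivAt_id z).const_add 1
  have h3 : HasDerivAt (fun z : ℂ => 1 - z) (-1) z := by simpa using (hasDerivAt_id z).const_sub 1
  have h4 := h2.div h3 h1
  refine h4.congr_deriv ?_
  field_simp
  ring

lemma cinv_holo : DifferentiableOn ℂ cinv HP := by
  apply DifferentiableOn.div
  · fun_prop
  · fun_prop
  · intro w hw
    exact add_one_ne hw

variable {φ : ℝ → ℂ → ℂ}

/-- the semigroup in the half-plane -/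
noncomputable def gh (φ : ℝ → ℂ → ℂ) (t : ℝ) (w : ℂ) : ℂ := cayley (φ t (cinv w))

lemma gh_mem (h : IsSemigroup φ) {t : ℝ} (ht : 0 ≤ t) {w : ℂ} (hw : w ∈ HP) : gh φ t w ∈ HP :=
  cayley_mem (h.maps t ht (cinv_mem hw))

lemma gh_holo (h : IsSemigroup φ) {t : ℝ} (ht : 0 ≤ t) : DifferentiableOn ℂ (gh φ t) HP := by
  intro w hw
  have h1 : DifferentiableWithinAt ℂ cinv HP w := cinv_holo w hw
  have h2 : DifferentiableWithinAt ℂ (φ t) D (cinv w) := h.holo t ht _ (cinv_mem hw)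
  have h3 : DifferentiableAt ℂ cayley (φ t (cinv w)) :=
    (cayley_deriv (h.maps t ht (cinv_mem hw))).differentiableAt
  exact h3.comp_differentiableWithinAt w (h2.comp w h1 (fun x hx => cinv_mem hx))

lemma zero_mem : (0 : ℂ) ∈ D := by simp

lemma Z_mem (h : IsSemigroup φ) {t : ℝ} (ht : 0 ≤ t) : Z φ t ∈ HP :=
  cayley_mem (h.maps t ht zero_mem)

lemma Z_zero (h : IsSemigroup φ) : Z φ 0 = 1 := by
  unfold Z
  rw [h.zero 0 zero_mem]
  simp [cayley]

lemma gh_Z (h : IsSemigroup φ) {s t : ℝ} (hs : 0 ≤ s) (ht : 0 ≤ t) :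
    gh φ t (Z φ s) = Z φ (t + s) := by
  unfold gh Z
  rw [cinv_cayley (h.maps s hs zero_mem), h.add s t hs ht 0 zero_mem]

lemma Z_tendsto (h : IsSemigroup φ) (hlim : Tendsto (fun t => φ t 0) atTop (𝓝 1)) :
    Tendsto (fun t => ‖Z φ t‖) atTop atTop := by
  have h1 : Tendsto (fun t => ‖1 - φ t 0‖) atTop (𝓝[>] 0) := by
    rw [tendsto_nhdsWithin_iff]
    constructor
    · have := (hlim.const_sub 1).norm
      simpa using this
    · filter_upwards [eventually_ge_atTop 0] with t ht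
      exact norm_pos_iff.2 (one_sub_ne (h.maps t ht zero_mem))
  have h2 : Tendsto (fun t => 2 * ‖1 - φ t 0‖⁻¹ - 1) atTop atTop := by
    apply tendsto_atTop_add_const_right
    exact (h1.inv_tendsto_nhdsGT_zero).const_mul_atTop (by norm_num)
  refine tendsto_atTop_mono' atTop ?_ h2
  filter_upwards [eventually_ge_atTop 0] with t ht
  have h3 := one_sub_ne (h.maps t ht zero_mem)
  have h4 : Z φ t = 2 * (1 - φ t 0)⁻¹ - 1 := by
    unfold Z cayley
    field_simp
    ring
  rw [h4]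
  refine le_trans ?_ (norm_sub_norm_le _ _)
  rw [norm_mul, norm_inv, norm_one]
  simp

/-- consequence of the Schwarz-Pick lemma -/
lemma pick_re {G : ℂ → ℂ} (hG : DifferentiableOn ℂ G HP) (hpos : ∀ w ∈ HP, G w ∈ HP)
    {a b : ℂ} (ha : a ∈ HP) (hb : b ∈ HP) :
    a.re * b.re * ‖G a + (starRingEnd ℂ) (G b)‖ ^ 2 ≤
      (G a).re * (G b).re * ‖a + (starRingEnd ℂ) b‖ ^ 2 := by
  have h1 := schwarz_pick hG hpos ha hb
  have h2 := normSq_add_conj (G a) (G b)
  have h3 := normSq_add_conj a b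
  have h4 : (‖G a - G b‖ * ‖a + (starRingEnd ℂ) b‖) ^ 2 ≤
      (‖a - b‖ * ‖G a + (starRingEnd ℂ) (G b)‖) ^ 2 :=
    pow_le_pow_left₀ (by positivity) h1 2
  rw [mul_pow, mul_pow] at h4
  have h5 : ‖G a - G b‖ ^ 2 = ‖G a + (starRingEnd ℂ) (G b)‖ ^ 2 - 4 * ((G a).re * (G b).re) := by
    linarith
  have h6 : ‖a - b‖ ^ 2 = ‖a + (starRingEnd ℂ) b‖ ^ 2 - 4 * (a.re * b.re) := by linarith
  rw [h5, h6] at h4
  nlinarith

lemma ratio_tendsto {b : ℕ → ℂ} (hb : Tendsto (fun n => ‖b n‖) atTop atTop) (a : ℂ) :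
    Tendsto (fun n => (‖a + (starRingEnd ℂ) (b n)‖ / ‖b n‖) ^ 2) atTop (𝓝 1) := by
  have h1 : Tendsto (fun n => ‖a + (starRingEnd ℂ) (b n)‖ / ‖b n‖) atTop (𝓝 1) := by
    have h2 : Tendsto (fun n => ‖a‖ / ‖b n‖) atTop (𝓝 0) := hb.const_div_atTop _
    rw [tendsto_iff_dist_tendsto_zero]
    refine squeeze_zero' (Eventually.of_forall fun n => dist_nonneg) ?_ h2
    filter_upwards [hb.eventually_gt_atTop 0] with n hn
    rw [Real.dist_eq]
    have h3 : ‖a + (starRingEnd ℂ) (b n)‖ / ‖b n‖ - 1 =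
        (‖a + (starRingEnd ℂ) (b n)‖ - ‖(starRingEnd ℂ) (b n)‖) / ‖b n‖ := by
      rw [RCLike.norm_conj]
      field_simp
    rw [h3, abs_div, abs_of_pos hn]
    gcongr
    have h4 := abs_norm_sub_norm_le (a + (starRingEnd ℂ) (b n)) ((starRingEnd ℂ) (b n))
    simpa using h4
  simpa using h1.pow 2

/-- Horodiscs at the Denjoy-Wolff point are invariant. -/
lemma horo (h : IsSemigroup φ) (hlim : Tendsto (fun t => φ t 0) atTop (𝓝 1)) {t : ℝ} (ht : 0 < t)
    {a : ℂ} (ha : a ∈ HP) : a.re ≤ (gh φ t a).re := by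
  by_contra hcon
  push Not at hcon
  set A := gh φ t a with hA
  have hAre : 0 < A.re := gh_mem h ht.le ha
  set b : ℕ → ℂ := fun n => Z φ (n * t) with hb
  have hbm : ∀ n, b n ∈ HP := fun n => Z_mem h (by positivity)
  have hbn : ∀ n, gh φ t (b n) = b (n + 1) := by
    intro n
    rw [hb]
    simp only
    rw [gh_Z h (by positivity) ht.le]
    congr 1
    push_cast
    ring
  have hbt : Tendsto (fun n => ‖b n‖) atTop atTop := by
    have h1 : Tendsto (fun n : ℕ => (n : ℝ) * t) atTop atTop :=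
      tendsto_natCast_atTop_atTop.atTop_mul_const ht
    exact (Z_tendsto h hlim).comp h1
  set q : ℕ → ℝ := fun n => (b n).re / ‖b n‖ ^ 2 with hq
  have hbpos : ∀ n, 0 < ‖b n‖ := by
    intro n
    have : 0 < (b n).re := hbm n
    exact this.trans_le (Complex.re_le_norm _)
  have hqpos : ∀ n, 0 < q n := by
    intro n
    have h1 : 0 < (b n).re := hbm n
    have h2 := hbpos n
    rw [hq]
    positivity
  have hq0 : Tendsto q atTop (𝓝 0) := by
    have h1 : Tendsto (fun n => ‖b n‖⁻¹) atTop (𝓝 0) := tendsto_inv_atTop_zero.comp hbt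
    refine squeeze_zero (fun n => (hqpos n).le) (fun n => ?_) h1
    rw [hq]
    simp only
    rw [div_le_iff₀ (by have := hbpos n; positivity)]
    have h2 : ‖b n‖⁻¹ * ‖b n‖ ^ 2 = ‖b n‖ := by
      have := hbpos n
      field_simp
    rw [h2]
    exact Complex.re_le_norm _
  have hX : Tendsto (fun n => A.re * (‖a + (starRingEnd ℂ) (b n)‖ / ‖b n‖) ^ 2) atTop
      (𝓝 A.re) := by simpa using (ratio_tendsto hbt a).const_mul A.re
  have hY : Tendsto (fun n => a.re * (‖A + (starRingEnd ℂ) (b (n + 1))‖ / ‖b (n + 1)‖) ^ 2) atTop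
      (𝓝 a.re) := by
    have h1 := (ratio_tendsto hbt A).comp (tendsto_add_atTop_nat 1)
    simpa using h1.const_mul a.re
  have hlt := hX.eventually_lt hY hcon
  obtain ⟨N, hN⟩ := eventually_atTop.1 hlt
  have hstep : ∀ n, N ≤ n → q n ≤ q (n + 1) := by
    intro n hn
    have h1 := hN n hn
    have h2 := pick_re (gh_holo h ht.le) (fun w hw => gh_mem h ht.le hw) ha (hbm n)
    rw [← hA, hbn n] at h2
    have p1 := hbpos n
    have p2 := hbpos (n + 1)
    -- divide by norms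
    have h3 : q n * (a.re * (‖A + (starRingEnd ℂ) (b (n + 1))‖ / ‖b (n + 1)‖) ^ 2) ≤
        q (n + 1) * (A.re * (‖a + (starRingEnd ℂ) (b n)‖ / ‖b n‖) ^ 2) := by
      have e1 : q n * (a.re * (‖A + (starRingEnd ℂ) (b (n + 1))‖ / ‖b (n + 1)‖) ^ 2) =
          (a.re * (b n).re * ‖A + (starRingEnd ℂ) (b (n + 1))‖ ^ 2) /
            (‖b n‖ ^ 2 * ‖b (n + 1)‖ ^ 2) := by
        rw [hq]
        field_simp
      have e2 : q (n + 1) * (A.re * (‖a + (starRingEnd ℂ) (b n)‖ / ‖b n‖) ^ 2) =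
          (A.re * (b (n + 1)).re * ‖a + (starRingEnd ℂ) (b n)‖ ^ 2) /
            (‖b n‖ ^ 2 * ‖b (n + 1)‖ ^ 2) := by
        rw [hq]
        field_simp
      rw [e1, e2]
      gcongr
    by_contra hc
    push Not at hc
    have hXn : 0 ≤ A.re * (‖a + (starRingEnd ℂ) (b n)‖ / ‖b n‖) ^ 2 := by positivity
    have := hqpos n
    have := hqpos (n + 1)
    nlinarith
  have hmono : ∀ n, N ≤ n → q N ≤ q n := by
    intro n hn
    induction n, hn using Nat.le_induction with
    | base => exact le_rfl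
    | succ n hn ih => exact ih.trans (hstep n hn)
  have hle : q N ≤ 0 := ge_of_tendsto hq0 (eventually_atTop.2 ⟨N, fun n hn => hmono n hn⟩)
  exact absurd (hqpos N) (not_lt.2 hle)

/-- the generator in the half-plane -/
noncomputable def G (φ : ℝ → ℂ → ℂ) (w : ℂ) : ℂ := (w + 1) ^ 2 / 2 * gen φ (cinv w)

lemma G_holo (h : IsSemigroup φ) : DifferentiableOn ℂ (G φ) HP := by
  unfold G
  apply DifferentiableOn.mul
  · fun_prop
  · exact (gen_holo h).comp cinv_holo (fun w hw => cinv_mem hw)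

lemma G_eq {z : ℂ} (hz : z ∈ D) : G φ (cayley z) = 2 / (1 - z) ^ 2 * gen φ z := by
  unfold G
  rw [cinv_cayley hz]
  congr 1
  unfold cayley
  have := one_sub_ne hz
  field_simp
  ring

lemma Z_deriv (h : IsSemigroup φ) {t : ℝ} (ht : 0 ≤ t) :
    HasDerivWithinAt (Z φ) (G φ (Z φ t)) (Ici t) t := by
  have h1 := hasDeriv_path h zero_mem ht
  have h2 := cayley_deriv (h.maps t ht zero_mem)
  have h3 := h2.comp_hasDerivWithinAt t h1
  unfold Z
  rw [G_eq (h.maps t ht zero_mem)]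
  exact h3

lemma Z_cont (h : IsSemigroup φ) : ContinuousOn (Z φ) (Ici 0) := by
  intro t ht
  have h1 : ContinuousWithinAt (fun t => φ t 0) (Ici 0) t := path_cont h zero_mem t ht
  have h2 : ContinuousAt cayley ((fun t => φ t 0) t) :=
    (cayley_deriv (h.maps t ht zero_mem)).continuousAt
  exact ContinuousAt.comp_continuousWithinAt (g := cayley) (f := fun t => φ t 0) h2 h1

lemma G_re_nonneg (h : IsSemigroup φ) (hlim : Tendsto (fun t => φ t 0) atTop (𝓝 1)) {w : ℂ}
    (hw : w ∈ HP) : 0 ≤ (G φ w).re := by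
  have h1 := hasDeriv_zero h (cinv_mem hw)
  have hz := h.zero _ (cinv_mem hw)
  have h2 : HasDerivAt cayley (2 / (1 - cinv w) ^ 2) (φ 0 (cinv w)) := by
    rw [hz]
    exact cayley_deriv (cinv_mem hw)
  have h3 := h2.comp_hasDerivWithinAt (0 : ℝ) h1
  rw [← G_eq (cinv_mem hw), cayley_cinv hw] at h3
  have h4 : HasDerivWithinAt (fun t => (gh φ t w).re) (G φ w).re (Ici 0) 0 := by
    have := Complex.reCLM.hasFDerivAt.comp_hasDerivWithinAt (0 : ℝ) h3
    exact this
  rw [hasDerivWithinAt_iff_tendsto_slope] at h4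
  have : (𝓝[Ici (0 : ℝ) \ {0}] 0).NeBot := by
    have : Ici (0 : ℝ) \ {0} = Ioi 0 := by
      ext x
      simp only [Set.mem_sdiff, mem_Ici, mem_singleton_iff, mem_Ioi]
      constructor
      · rintro ⟨h1, h2⟩
        exact lt_of_le_of_ne h1 (Ne.symm h2)
      · intro h
        exact ⟨h.le, h.ne'⟩
    rw [this]
    infer_instance
  refine ge_of_tendsto h4 ?_
  filter_upwards [eventually_mem_nhdsWithin] with t ht
  have ht0 : (0 : ℝ) < t := lt_of_le_of_ne ht.1 (Ne.symm ht.2)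
  rw [slope_def_module, sub_zero, smul_eq_mul]
  have h5 := horo h hlim ht0 hw
  have h6 : gh φ 0 w = w := by
    unfold gh
    rw [hz, cayley_cinv hw]
  rw [h6]
  have : 0 ≤ (gh φ t w).re - w.re := by linarith
  positivity

end Pool.Agent.W5h52.HM
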