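import Mathlib

set_option autoImplicit false

open Complex Filter Topology Set Metric

namespace Pool.Agent.W5h52.HM

/-- the right half-plane -/
def HP : Set ℂ := {w : ℂ | 0 < w.re}

lemma isOpen_HP : IsOpen HP := isOpen_lt continuous_const Complex.continuous_re

lemma normSq_add_conj (A B : ℂ) :
    ‖A + (starRingEnd ℂ) B‖ ^ 2 = ‖A - B‖ ^ 2 + 4 * (A.re * B.re) := by
  rw [← Complex.normSq_eq_norm_sq, ← Complex.normSq_eq_norm_sq, Complex.normSq_apply,
    Complex.normSq_apply]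
  simp
  ring

lemma add_conj_ne {A B : ℂ} (hA : 0 < A.re) (hB : 0 < B.re) : A + (starRingEnd ℂ) B ≠ 0 := by
  intro h
  have := congrArg Complex.re h
  simp at this
  linarith

lemma norm_sub_lt {A B : ℂ} (hA : 0 < A.re) (hB : 0 < B.re) :
    ‖A - B‖ < ‖A + (starRingEnd ℂ) B‖ := by
  have h := normSq_add_conj A B
  have h2 : 0 < A.re * B.re := mul_pos hA hB
  nlinarith [norm_nonneg (A - B), norm_nonneg (A + (starRingEnd ℂ) B)]

/-- Schwarz-Pick in the half-plane -/
lemma schwarz_pick {G : ℂ → ℂ} (hG : DifferentiableOn ℂ G HP) (hpos : ∀ w ∈ HP, G w ∈ HP)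
    {a b : ℂ} (ha : a ∈ HP) (hb : b ∈ HP) :
    ‖G a - G b‖ * ‖a + (starRingEnd ℂ) b‖ ≤ ‖a - b‖ * ‖G a + (starRingEnd ℂ) (G b)‖ := by
  set ψ : ℂ → ℂ := fun z => (b + (starRingEnd ℂ) b * z) / (1 - z) with hψ
  have hz1 : ∀ z ∈ ball (0 : ℂ) 1, 1 - z ≠ 0 := by
    intro z hz h
    have : z = 1 := by linear_combination -h
    subst this
    simp at hz
  have hψre : ∀ z ∈ ball (0 : ℂ) 1, ψ z ∈ HP := by
    intro z hz
    have hz' : ‖z‖ < 1 := by simpa using hz
    have h1 : (ψ z).re = b.re * (1 - ‖z‖ ^ 2) / Complex.normSq (1 - z) := by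
      rw [hψ]
      simp only [Complex.div_re]
      rw [← add_div, ← Complex.normSq_eq_norm_sq, Complex.normSq_apply z]
      congr 1
      simp
      ring
    show 0 < (ψ z).re
    rw [h1]
    apply div_pos
    · apply mul_pos hb
      nlinarith [norm_nonneg z]
    · exact Complex.normSq_pos.2 (hz1 z hz)
  have hψd : DifferentiableOn ℂ ψ (ball 0 1) := by
    apply DifferentiableOn.div
    · fun_prop
    · fun_prop
    · exact hz1
  set f : ℂ → ℂ := fun z => (G (ψ z) - G b) / (G (ψ z) + (starRingEnd ℂ) (G b)) with hf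
  have hψ0 : ψ 0 = b := by simp [hψ]
  have hfd : DifferentiableOn ℂ f (ball 0 1) := by
    have h1 : DifferentiableOn ℂ (fun z => G (ψ z)) (ball 0 1) := hG.comp hψd hψre
    apply DifferentiableOn.div
    · exact h1.sub_const _
    · exact h1.add_const _
    · intro z hz
      exact add_conj_ne (hpos _ (hψre z hz)) (hpos _ hb)
  have hfm : MapsTo f (ball 0 1) (closedBall 0 1) := by
    intro z hz
    rw [mem_closedBall_zero_iff, hf]
    simp only [norm_div]
    rw [div_le_one (norm_pos_iff.2 (add_conj_ne (hpos _ (hψre z hz)) (hpos _ hb)))]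
    exact (norm_sub_lt (hpos _ (hψre z hz)) (hpos _ hb)).le
  have hf0 : f 0 = 0 := by simp [hf, hψ0]
  have hab : a + (starRingEnd ℂ) b ≠ 0 := add_conj_ne ha hb
  have hGab : G a + (starRingEnd ℂ) (G b) ≠ 0 := add_conj_ne (hpos _ ha) (hpos _ hb)
  set z : ℂ := (a - b) / (a + (starRingEnd ℂ) b) with hz
  have hzn : ‖z‖ < 1 := by
    rw [hz, norm_div, div_lt_one (norm_pos_iff.2 hab)]
    exact norm_sub_lt ha hb
  have hψz : ψ z = a := by
    have h1 : 1 - z ≠ 0 := hz1 z (by simpa using hzn)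
    rw [hψ]
    simp only
    rw [div_eq_iff h1, hz]
    field_simp
    ring
  have key := Complex.norm_le_norm_of_mapsTo_ball hfd hfm hf0 hzn
  rw [hf] at key
  simp only [hψz] at key
  rw [hz, norm_div, norm_div, div_le_div_iff₀ (norm_pos_iff.2 hGab) (norm_pos_iff.2 hab)] at key
  exact key

/-- ratio bound -/
lemma ratio_bound {G : ℂ → ℂ} (hG : DifferentiableOn ℂ G HP) (hpos : ∀ w ∈ HP, G w ∈ HP)
    {x y y' : ℝ} (hx : 0 < x) :
    ‖G (x + y * I)‖ ≤ (1 + |y - y'| / x) ^ 2 * ‖G (x + y' * I)‖ := by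
  set a : ℂ := x + y * I with ha
  set b : ℂ := x + y' * I with hb
  have hare : a.re = x := by simp [ha]
  have hbre : b.re = x := by simp [hb]
  have haH : a ∈ HP := by show 0 < a.re; rw [hare]; exact hx
  have hbH : b ∈ HP := by show 0 < b.re; rw [hbre]; exact hx
  have h1 := schwarz_pick hG hpos haH hbH
  have hab : ‖a - b‖ = |y - y'| := by
    have : a - b = ((y - y' : ℝ) : ℂ) * I := by rw [ha, hb]; push_cast; ring
    rw [this, norm_mul, Complex.norm_I, mul_one, Complex.norm_real, Real.norm_eq_abs]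
  have hsq : ‖a + (starRingEnd ℂ) b‖ ^ 2 = |y - y'| ^ 2 + 4 * (x * x) := by
    rw [normSq_add_conj, hab, hare, hbre]
  set δ := |y - y'| with hδ
  set N := ‖a + (starRingEnd ℂ) b‖ with hN
  have hN0 : 0 ≤ N := norm_nonneg _
  have hδ0 : 0 ≤ δ := abs_nonneg _
  set A := ‖G a‖ with hA
  set B := ‖G b‖ with hB
  have hB0 : 0 < B := norm_pos_iff.2 (by
    intro h
    have := hpos b hbH
    rw [h] at this
    simp [HP] at this)
  have h2 : A - B ≤ ‖G a - G b‖ := norm_sub_norm_le _ _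
  have h3 : ‖G a + (starRingEnd ℂ) (G b)‖ ≤ A + B := by
    refine (norm_add_le _ _).trans ?_
    rw [RCLike.norm_conj]
  have h4 : (A - B) * N ≤ δ * (A + B) := by
    calc (A - B) * N ≤ ‖G a - G b‖ * N := mul_le_mul_of_nonneg_right h2 hN0
      _ ≤ ‖a - b‖ * ‖G a + (starRingEnd ℂ) (G b)‖ := h1
      _ ≤ δ * (A + B) := by rw [hab]; exact mul_le_mul_of_nonneg_left h3 hδ0
  -- (N - δ) A ≤ (N + δ) B,  (N - δ)(N + δ) = 4x²
  have h5 : (N - δ) * A ≤ (N + δ) * B := by nlinarith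
  have h6 : (N - δ) * (N + δ) = 4 * x ^ 2 := by nlinarith
  have hNd : 0 < N + δ := by
    by_contra hcon
    have hN' : N = 0 := by linarith
    have : δ = 0 := by linarith
    rw [hN', this] at h6
    nlinarith
  have h7 : N ≤ δ + 2 * x := by
    by_contra hcon
    push Not at hcon
    nlinarith
  have h8 : 4 * x ^ 2 * A ≤ (N + δ) ^ 2 * B := by
    have := mul_le_mul_of_nonneg_left h5 hNd.le
    calc 4 * x ^ 2 * A = (N + δ) * ((N - δ) * A) := by rw [← h6]; ring
      _ ≤ (N + δ) * ((N + δ) * B) := this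
      _ = (N + δ) ^ 2 * B := by ring
  have h9 : (N + δ) ^ 2 ≤ (2 * δ + 2 * x) ^ 2 := by
    apply pow_le_pow_left₀ hNd.le
    linarith
  have h10 : 4 * x ^ 2 * A ≤ (2 * δ + 2 * x) ^ 2 * B := h8.trans (mul_le_mul_of_nonneg_right h9 hB0.le)
  have h11 : (1 + δ / x) ^ 2 * B = (2 * δ + 2 * x) ^ 2 * B / (4 * x ^ 2) := by
    field_simp
    ring
  rw [h11, le_div_iff₀ (by positivity)]
  linarith

end Pool.Agent.W5h52.HM
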